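import Pool.Agent.SR3.NC.Defs

/-!
# SR3 NC Pt: the differential vanishes on the tangent vectors of the curve of `J` at the points with `G ≠ 0`
-/

set_option autoImplicit false

open Topology Filter Metric MvPolynomial

noncomputable section

namespace Pool.Agent.SR3.NC

open Pool.Agent.H36.BP (EN)
open Pool.Agent.H62.FC (Homog)
open Pool.Agent.H17LG.Variety (FunField)
open Pool.Agent.H17EF (projVar coneE LE)
open Pool.Agent.H13.SM (conTan cone)
open Pool.Agent.AD (SymDiff TangentTo)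
open Pool.Agent.AD.NC (IsSmooth)
open Pool.Agent.H14.PP (Tan)

variable {N : ℕ} {P J : Ideal (MvPolynomial (Fin (N + 1)) ℂ)} {H : MvPolynomial (Fin (N + 1)) ℂ}

private theorem pt_evc (Q : MvPolynomial (Fin (N + 1)) ℂ) : Continuous fun x : EN N => eval x.ofLp Q :=
  (MvPolynomial.continuous_eval Q).comp (PiLp.continuous_ofLp 2 _)

theorem pt_mem_oc {x : EN N} : x ∈ oc P H ↔ x ∈ coneE P ∧ eval x.ofLp H ≠ 0 := by
  constructor
  · rintro ⟨h1, h2⟩
    exact ⟨h1, h2 0⟩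
  · rintro ⟨h1, h2⟩
    exact ⟨h1, fun _ => h2⟩

theorem pt_tan_oc {x v : EN N} (hx : x ∈ oc P H) (hv : Tan (coneE P) x v) : Tan (oc P H) x v := by
  obtain ⟨F, ⟨h1, h2⟩, h3, h4⟩ := hv
  refine ⟨F, ⟨h1, ?_⟩, h3, h4⟩
  have h5 : ContinuousAt (fun z => eval (F z).ofLp H) 0 := (pt_evc H).continuousAt.comp h1.continuousAt
  have h6 : eval (F 0).ofLp H ≠ 0 := by
    rw [h3]
    exact (pt_mem_oc.1 hx).2
  filter_upwards [h2, h5.eventually_ne h6] with z hz hz'
  exact pt_mem_oc.2 ⟨hz, hz'⟩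

/-- the Zariski tangent vectors are tangent vectors -/
theorem pt_tan [P.IsPrime] {z : Fin 2 → FunField P} (hP : Homog P) (hz : IsTranscendenceBasis ℂ z) (hsm : IsSmooth P 2) {x v : EN N}
    (hx : x ∈ oc P H) (hv : v.ofLp ∈ conTan P x.ofLp) : Tan (oc P H) x v :=
  pt_tan_oc hx (tan_of_conTan hP hz hsm (pt_mem_oc.1 hx).1 hv)

theorem pt_eval_W {x : Fin (N + 1) → ℂ} (t : Fin (N + 1) → MvPolynomial (Fin (N + 1)) ℂ) (W : MvPolynomial (Fin (N + 1) ⊕ Fin (N + 1)) ℂ) :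
    eval x (aeval (Sum.elim X t) W) = eval (Sum.elim x fun i => eval x (t i)) W := by
  induction W using MvPolynomial.induction_on with
  | C a => simp only [algHom_C, algebraMap_eq, eval_C]
  | add p q hp hq => rw [map_add, map_add, hp, hq, map_add]
  | mul_X p s hp =>
    rw [map_mul, map_mul, hp, map_mul, aeval_X, eval_X]
    rcases s with s | s
    · simp only [Sum.elim_inl, eval_X]
    · simp only [Sum.elim_inr]

/-- `θ` vanishes on the tangent vectors of the curve of `J` at the points with `G ≠ 0`. -/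
theorem null_at [P.IsPrime] {z : Fin 2 → FunField P} (hP : Homog P) (hz : IsTranscendenceBasis ℂ z) (hsm : IsSmooth P 2) (hPJ : P ≤ J)
    {m r : ℕ} (hm : 1 ≤ m) (θ : SymDiff (oc P H) m) {W : MvPolynomial (Fin (N + 1) ⊕ Fin (N + 1)) ℂ}
    (hW : ∀ x ∈ oc P H, ∀ v, Pool.Agent.H14.PP.Tan (oc P H) x v → θ.toFun x v * eval x.ofLp H ^ r = eval (Sum.elim x.ofLp v.ofLp) W)
    {G : MvPolynomial (Fin (N + 1)) ℂ} {t : Fin (N + 1) → MvPolynomial (Fin (N + 1)) ℂ} (ht : Tng J G t) (hT : aeval (Sum.elim X t) W ∈ J)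
    {y : EN N} (hy : y ∈ oc P H) (hyJ : ∀ G ∈ J, eval y.ofLp G = 0)
    (hD : eval y.ofLp G ≠ 0) {w : EN N} (hw : w.ofLp ∈ conTan J y.ofLp) : θ.toFun y w = 0 := by
  obtain ⟨-, htJ, hsp⟩ := ht y.ofLp hyJ hD
  obtain ⟨al, be, hab⟩ := hsp _ hw
  have hH0 : eval y.ofLp H ≠ 0 := (pt_mem_oc.1 hy).2
  set u : EN N := WithLp.toLp 2 fun i => eval y.ofLp (t i) with hu
  have huT : Tan (oc P H) y u := pt_tan hP hz hsm hy (Pool.Agent.AD.G.conTan_anti hPJ htJ)
  have h1 : θ.toFun y u = 0 := by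
    have h2 := hW y hy u huT
    have h3 := hyJ _ hT
    rw [pt_eval_W] at h3
    have h4 : eval (Sum.elim y.ofLp u.ofLp) W = 0 := h3
    rw [h4] at h2
    exact (mul_eq_zero.1 h2).resolve_right (pow_ne_zero r hH0)
  have hbu : Tan (oc P H) y (be • u) := pt_tan hP hz hsm hy ((conTan P y.ofLp).smul_mem be (Pool.Agent.AD.G.conTan_anti hPJ htJ))
  have hwu : w = be • u + al • y := by
    apply (LE N).symm.injective
    show w.ofLp = _
    rw [hab]
    exact add_comm (al • y.ofLp) (be • u.ofLp)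
  rw [hwu, θ.add_smul y _ hbu al, θ.smul y u huT be, h1, mul_zero]

end Pool.Agent.SR3.NC
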