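import Pool.Agent.SR3.HDefs2
import Pool.Agent.SR3.Qnl
import Pool.Agent.H17BP.MapIdeal
import Pool.Agent.H17BP.TrdegLt
import Pool.Agent.H17BP.ConstV
import Pool.Agent.H62.FC.Components
import Pool.Agent.AD.G.Spec

/-!
# SR3 NC Defs: the null curves of order two (MODULE H14), definitions
-/

set_option autoImplicit false

open Topology Filter Metric MvPolynomial

noncomputable section

namespace Pool.Agent.SR3.NC

open Pool.Agent.H17 (PN VanishesAt HolomorphicInto)
open Pool.Agent.H17EF (projVar)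
open Pool.Agent.H13.SM (conTan cone)

variable {N : ℕ}

/-- `f` is a nonconstant entire curve in the curve `{R = 0}` of the variety of `P` -/
structure CurveIn (P : Ideal (MvPolynomial (Fin (N + 1)) ℂ)) (R : MvPolynomial (Fin (N + 1)) ℂ) (f : ℂ → PN N) : Prop where
  hol : HolomorphicInto f Set.univ
  ne : ∃ z w, f z ≠ f w
  mem : ∀ z, f z ∈ projVar P
  van : ∀ z, VanishesAt R (f z)

/-- The field `t` and the coordinates `x` span the tangent spaces of the cone of `J` where `G ≠ 0` (from `exists_tangent` of `SR3/NCcA.lean`). -/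
def Tng (J : Ideal (MvPolynomial (Fin (N + 1)) ℂ)) (G : MvPolynomial (Fin (N + 1)) ℂ) (t : Fin (N + 1) → MvPolynomial (Fin (N + 1)) ℂ) : Prop :=
  ∀ x : Fin (N + 1) → ℂ, (∀ Q ∈ J, eval x Q = 0) → eval x G ≠ 0 → x ≠ 0 ∧ (fun i => eval x (t i)) ∈ conTan J x ∧
    ∀ v ∈ conTan J x, ∃ al be : ℂ, v = al • x + be • fun i => eval x (t i)

end Pool.Agent.SR3.NC
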