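import Pool.Agent.SR3.NC.Defs

/-!
# SR3 NC NulM: the form along the null curve

`F` the entire lift of `f` with `θ (F, F') = 0`.  At `x = c F (z)`, `c ≠ 0`, `G (x) ≠ 0`, the vector `c F' (z)` is in the tangent space of the cone of
`J = mapIdeal f`, so `c F' = α x + β t (x)`.  If `β ≠ 0` then `θ (x, t (x)) = 0`, so `W (x, t (x)) = 0`; if `β = 0` then all the minors `F_i F_j' - F_j F_i'` vanish
at `z`.  One minor is not identically zero since `f` is not constant.
-/

set_option autoImplicit false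

open Topology Filter Metric MvPolynomial

noncomputable section

namespace Pool.Agent.SR3.NC

open Pool.Agent.H36.BP (EN)
open Pool.Agent.H17 (PN VanishesAt HolomorphicInto)
open Pool.Agent.H62.FC (Homog)
open Pool.Agent.H17EF (projVar coneE LE mk_mem_projVar)
open Pool.Agent.H13.SM (conTan cone Inv_hasFDerivAt_eval)
open Pool.Agent.H17BP (mapIdeal mapIdeal_isPrime vanishesAt_mk eval_smul_form)
open Pool.Agent.AD (SymDiff TangentTo)
open Pool.Agent.H14.PP (Tan)

variable {N : ℕ} {P : Ideal (MvPolynomial (Fin (N + 1)) ℂ)} {H : MvPolynomial (Fin (N + 1)) ℂ} {h : ℕ} {f : ℂ → PN N}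

private theorem nul_evW {x : Fin (N + 1) → ℂ} (t : Fin (N + 1) → MvPolynomial (Fin (N + 1)) ℂ) (W : MvPolynomial (Fin (N + 1) ⊕ Fin (N + 1)) ℂ) :
    eval x (aeval (Sum.elim X t) W) = eval (Sum.elim x fun i => eval x (t i)) W := by
  induction W using MvPolynomial.induction_on with
  | C a => simp only [algHom_C, algebraMap_eq, eval_C]
  | add p q hp hq => rw [map_add, map_add, hp, hq, map_add]
  | mul_X p s hp =>
    rw [map_mul, map_mul, hp, map_mul, aeval_X, eval_X]
    rcases s with s | s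
    · simp only [Sum.elim_inl, eval_X]
    · simp only [Sum.elim_inr]

private theorem nul_mem_oc {x : EN N} : x ∈ oc P H ↔ x ∈ coneE P ∧ eval x.ofLp H ≠ 0 := by
  constructor
  · rintro ⟨h1, h2⟩
    exact ⟨h1, h2 0⟩
  · rintro ⟨h1, h2⟩
    exact ⟨h1, fun _ => h2⟩

private theorem nul_cone_smul (hP : Homog P) {x : Fin (N + 1) → ℂ} (hx : x ∈ cone P) {c : ℂ} (hc : c ≠ 0) : c • x ∈ cone P := by
  refine ⟨smul_ne_zero hc hx.1, fun Q hQ => ?_⟩
  rw [← MvPolynomial.sum_homogeneousComponent Q, map_sum]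
  refine Finset.sum_eq_zero fun i _ => ?_
  rw [eval_smul_form (homogeneousComponent_isHomogeneous i Q), hx.2 _ (hP Q hQ i), mul_zero]

private theorem nul_oc_smul (hP : Homog P) (hH : H.IsHomogeneous h) {x : EN N} (hx : x ∈ oc P H) {c : ℂ} (hc : c ≠ 0) : c • x ∈ oc P H := by
  have h1 := nul_mem_oc.1 hx
  refine nul_mem_oc.2 ⟨nul_cone_smul hP h1.1 hc, ?_⟩
  have h2 : eval (c • x).ofLp H = c ^ h * eval x.ofLp H := eval_smul_form hH _ _
  rw [h2]
  exact mul_ne_zero (pow_ne_zero _ hc) h1.2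

private theorem nul_tan_comb {Y : Set (EN N)} (hY : ∀ x ∈ Y, ∀ c : ℂ, c ≠ 0 → c • x ∈ Y) {x v : EN N} (h : Tan Y x v) (t a : ℂ) :
    Tan Y x (t • v + a • x) := by
  obtain ⟨F, ⟨hF, hFX⟩, h0, h1⟩ := h
  have g1 : HasDerivAt (fun z : ℂ => t * z) t 0 := by simpa using (hasDerivAt_id (0 : ℂ)).const_mul t
  have g2 : HasDerivAt F v (t * 0) := by rw [mul_zero, ← h1]; exact hF.differentiableAt.hasDerivAt
  have g3 : HasDerivAt (fun z : ℂ => F (t * z)) (t • v) 0 := HasDerivAt.scomp (0 : ℂ) g2 g1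
  have g4 : HasDerivAt (fun z : ℂ => 1 + a * z) a 0 := by
    simpa using ((hasDerivAt_id (0 : ℂ)).const_mul a).const_add 1
  have g5 := g4.smul g3
  refine ⟨fun z => (1 + a * z) • F (t * z), ⟨?_, ?_⟩, ?_, ?_⟩
  · have e1 : AnalyticAt ℂ (fun z : ℂ => t * z) 0 := analyticAt_const.mul analyticAt_id
    have e2 : AnalyticAt ℂ F ((fun z : ℂ => t * z) 0) := by simpa using hF
    exact (analyticAt_const.add (analyticAt_const.mul analyticAt_id)).smul (AnalyticAt.comp (g := F) (f := fun z : ℂ => t * z) e2 e1)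
  · have c1 : Tendsto (fun z : ℂ => t * z) (𝓝 0) (𝓝 0) := by
      have : Continuous fun z : ℂ => t * z := by fun_prop
      simpa using this.tendsto 0
    have c2 : ∀ᶠ z : ℂ in 𝓝 0, (1 + a * z) ≠ 0 := by
      have : ContinuousAt (fun z : ℂ => 1 + a * z) 0 := by fun_prop
      exact this.eventually_ne (by simp)
    filter_upwards [c1.eventually hFX, c2] with z hz1 hz2
    exact hY _ hz1 _ hz2
  · simp [h0]
  · have h4 : deriv (fun z => (1 + a * z) • F (t * z)) 0 = (1 + a * 0) • (t • v) + a • F (t * 0) := g5.deriv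
    rw [h4]
    simp [h0]

/-- the ideal of `f` and the lift -/
private theorem nul_mem_iff {F : ℂ → EN N} (hF : ∀ z, ∃ h : (F z).ofLp ≠ 0, f z = Projectivization.mk ℂ (F z).ofLp h)
    (Q : MvPolynomial (Fin (N + 1)) ℂ) : Q ∈ mapIdeal f Set.univ ↔ ∀ z (c : ℂ), eval (c • (F z).ofLp) Q = 0 := by
  constructor
  · intro hQ z c
    obtain ⟨h1, h2⟩ := hF z
    obtain ⟨a, ha, h3⟩ := Pool.Agent.H36.BP.rep_mk h1
    have h4 := hQ z (Set.mem_univ z) (c / a)
    rw [h2, h3, smul_smul, div_mul_cancel₀ _ ha] at h4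
    exact h4
  · intro hQ z _ c
    obtain ⟨h1, h2⟩ := hF z
    obtain ⟨a, ha, h3⟩ := Pool.Agent.H36.BP.rep_mk h1
    rw [h2, h3, smul_smul]
    exact hQ z _

/-- the coordinates of an entire map -/
private theorem nul_coord {F : ℂ → EN N} (hF : Differentiable ℂ F) (i : Fin (N + 1)) (z : ℂ) :
    HasDerivAt (fun w => (F w).ofLp i) ((deriv F z).ofLp i) z := by
  have h1 : HasDerivAt F (deriv F z) z := (hF z).hasDerivAt
  have h2 : HasFDerivAt (fun y : EN N => y.ofLp i)
      ((ContinuousLinearMap.proj i : (Fin (N + 1) → ℂ) →L[ℂ] ℂ).comp ((LE N).symm : EN N →L[ℂ] (Fin (N + 1) → ℂ))) (F z) :=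
    ((ContinuousLinearMap.proj i : (Fin (N + 1) → ℂ) →L[ℂ] ℂ).comp ((LE N).symm : EN N →L[ℂ] (Fin (N + 1) → ℂ))).hasFDerivAt
  exact h2.comp_hasDerivAt z h1

private theorem nul_eval_deriv {F : ℂ → EN N} (hF : Differentiable ℂ F) (Q : MvPolynomial (Fin (N + 1)) ℂ) (c z : ℂ) :
    HasDerivAt (fun w => eval (c • (F w).ofLp) Q) (∑ i, (c • (deriv F z).ofLp) i * eval (c • (F z).ofLp) (pderiv i Q)) z := by
  have h1 : HasDerivAt (fun w => c • (F w).ofLp) (c • (deriv F z).ofLp) z := by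
    rw [hasDerivAt_pi]
    intro i
    exact (nul_coord hF i z).const_mul c
  have h2 := (Inv_hasFDerivAt_eval Q (c • (F z).ofLp)).comp_hasDerivAt z h1
  refine h2.congr_deriv ?_
  simp only [sum_apply, FunLike.coe_smul, Pi.smul_apply, ContinuousLinearMap.proj_apply, smul_eq_mul]
  exact Finset.sum_congr rfl fun i _ => mul_comm _ _

private theorem nul_conTan0 {F : ℂ → EN N} (hF : Differentiable ℂ F) {Q : MvPolynomial (Fin (N + 1)) ℂ}
    (hJ : ∀ z (c : ℂ), eval (c • (F z).ofLp) Q = 0) (c z : ℂ) :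
    ∑ i, (c • (deriv F z).ofLp) i * eval (c • (F z).ofLp) (pderiv i Q) = 0 := by
  have h1 := nul_eval_deriv hF Q c z
  have h2 : (fun w => eval (c • (F w).ofLp) Q) = fun _ => (0 : ℂ) := by
    have h3 := fun w => hJ w c
    funext w
    exact h3 w
  rw [h2] at h1
  exact h1.unique (hasDerivAt_const z 0)

/-- the velocity is tangent to the cone of the ideal -/
private theorem nul_conTan {J : Ideal (MvPolynomial (Fin (N + 1)) ℂ)} {F : ℂ → EN N} (hF : Differentiable ℂ F)
    (hJ : ∀ Q ∈ J, ∀ z (c : ℂ), eval (c • (F z).ofLp) Q = 0) (c z : ℂ) :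
    c • (deriv F z).ofLp ∈ conTan J (c • (F z).ofLp) := by
  have h0 : ∀ Q ∈ J, ∑ i, (c • (deriv F z).ofLp) i * eval (c • (F z).ofLp) (pderiv i Q) = 0 := by
    intro Q hQ
    exact nul_conTan0 hF (hJ Q hQ) c z
  exact h0

private theorem nul_entire {g : ℂ → ℂ} (hg : Differentiable ℂ g) : AnalyticOnNhd ℂ g Set.univ := fun z _ => hg.analyticAt z

/-- a minor of `(F, F')` which is not identically zero -/
private theorem nul_minor {F : ℂ → EN N} (hF : Differentiable ℂ F) (hFf : ∀ z, ∃ h : (F z).ofLp ≠ 0, f z = Projectivization.mk ℂ (F z).ofLp h)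
    (hne : ∃ z w, f z ≠ f w) : ∃ i j, ∃ z, (F z).ofLp i * (deriv F z).ofLp j - (F z).ofLp j * (deriv F z).ofLp i ≠ 0 := by
  by_contra hcon
  push Not at hcon
  obtain ⟨z₁, z₂, h12⟩ := hne
  apply h12
  obtain ⟨hz0, -⟩ := hFf 0
  obtain ⟨i, hi⟩ : ∃ i, (F 0).ofLp i ≠ 0 := by
    by_contra hc
    push Not at hc
    exact hz0 (funext hc)
  -- every coordinate is a multiple of the coordinate `i`
  have hmul : ∀ j, ∃ a : ℂ, ∀ z, (F z).ofLp j = a * (F z).ofLp i := by
    intro j
    refine ⟨(F 0).ofLp j / (F 0).ofLp i, ?_⟩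
    have hdi : Differentiable ℂ fun z => (F z).ofLp i := fun z => (nul_coord hF i z).differentiableAt
    have hdj : Differentiable ℂ fun z => (F z).ofLp j := fun z => (nul_coord hF j z).differentiableAt
    have hev : ∀ᶠ z in 𝓝 (0 : ℂ), (F z).ofLp i ≠ 0 := (hdi.continuous.continuousAt).eventually_ne hi
    obtain ⟨ε, hε, hball⟩ := Metric.eventually_nhds_iff_ball.1 hev
    have hconst : ∀ z ∈ ball (0 : ℂ) ε, (F z).ofLp j / (F z).ofLp i = (F 0).ofLp j / (F 0).ofLp i := by
      have hd : ∀ z ∈ ball (0 : ℂ) ε, HasDerivAt (fun w => (F w).ofLp j / (F w).ofLp i) 0 z := by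
        intro z hz
        have h1 := (nul_coord hF j z).div (nul_coord hF i z) (hball z hz)
        refine h1.congr_deriv ?_
        have h2 := hcon i j z
        have h3 : (deriv F z).ofLp j * (F z).ofLp i - (F z).ofLp j * (deriv F z).ofLp i = 0 := by
          rw [← h2]; ring
        rw [h3, zero_div]
      intro z hz
      have hcv : Convex ℝ (ball (0 : ℂ) ε) := convex_ball 0 ε
      have h4 := hcv.is_const_of_fderivWithin_eq_zero (𝕜 := ℂ) (f := fun w => (F w).ofLp j / (F w).ofLp i)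
        (fun w hw => (hd w hw).differentiableAt.differentiableWithinAt) (fun w hw => by
          rw [fderivWithin_of_isOpen isOpen_ball hw]
          have h5 := (hd w hw).hasFDerivAt.fderiv
          rw [h5]
          ext
          simp) hz (mem_ball_self hε)
      exact h4
    have hE : Set.EqOn (fun z => (F z).ofLp j) (fun z => (F 0).ofLp j / (F 0).ofLp i * (F z).ofLp i) Set.univ := by
      refine (nul_entire hdj).eqOn_of_preconnected_of_eventuallyEq (nul_entire (hdi.const_mul _)) isPreconnected_univ (Set.mem_univ 0) ?_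
      filter_upwards [ball_mem_nhds (0 : ℂ) hε] with z hz
      have h1 := hconst z hz
      show (F z).ofLp j = (F 0).ofLp j / (F 0).ofLp i * (F z).ofLp i
      rw [← h1, div_mul_cancel₀ _ (hball z hz)]
    exact fun z => hE (Set.mem_univ z)
  choose a ha using hmul
  have hF2 : ∀ z, (F z).ofLp = (F z).ofLp i • a := fun z => funext fun j => by rw [ha j z, Pi.smul_apply, smul_eq_mul, mul_comm]
  have hFi : ∀ z, (F z).ofLp i ≠ 0 := by
    intro z h0
    obtain ⟨h1, -⟩ := hFf z
    apply h1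
    rw [hF2 z, h0, zero_smul]
  obtain ⟨h1, h2⟩ := hFf z₁
  obtain ⟨h3, h4⟩ := hFf z₂
  rw [h2, h4, Projectivization.mk_eq_mk_iff']
  refine ⟨(F z₁).ofLp i / (F z₂).ofLp i, ?_⟩
  rw [hF2 z₁, hF2 z₂, smul_smul]
  congr 1
  have : (((F z₂).ofLp i • a) i) = (F z₂).ofLp i := by rw [← hF2 z₂]
  rw [this]
  have h5 : (((F z₁).ofLp i • a) i) = (F z₁).ofLp i := by rw [← hF2 z₁]
  rw [h5, div_mul_cancel₀ _ (hFi z₂)]

theorem null_mem (hP : Homog P) {m r : ℕ} (hm : 1 ≤ m) (θ : SymDiff (oc P H) m) (hH : H.IsHomogeneous h) {W : MvPolynomial (Fin (N + 1) ⊕ Fin (N + 1)) ℂ}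
    (hW : ∀ x ∈ oc P H, ∀ v, Pool.Agent.H14.PP.Tan (oc P H) x v → θ.toFun x v * eval x.ofLp H ^ r = eval (Sum.elim x.ofLp v.ofLp) W)
    (hf : HolomorphicInto f Set.univ) (hfP : ∀ z, f z ∈ projVar P ∧ ¬ VanishesAt H (f z)) (hne : ∃ z w, f z ≠ f w) (hθ : TangentTo θ f)
    {G : MvPolynomial (Fin (N + 1)) ℂ} {t : Fin (N + 1) → MvPolynomial (Fin (N + 1)) ℂ} (hG : G ∉ mapIdeal f Set.univ)
    (ht : Tng (mapIdeal f Set.univ) G t) : aeval (Sum.elim X t) W ∈ mapIdeal f Set.univ := by
  have _ := hm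
  have hprime : (mapIdeal f Set.univ).IsPrime := mapIdeal_isPrime isOpen_univ isPreconnected_univ Set.univ_nonempty hf
  obtain ⟨F, ⟨hFd, hFf⟩, hθF⟩ := hθ
  set Φ := aeval (Sum.elim X t) W with hΦ
  -- the lift is in the open cone
  have hoc : ∀ z, F z ∈ oc P H := by
    intro z
    obtain ⟨h1, h2⟩ := hFf z
    have h3 := hfP z
    rw [h2, mk_mem_projVar hP h1, vanishesAt_mk hH h1] at h3
    exact nul_mem_oc.2 ⟨h3.1, h3.2⟩
  have hsm : ∀ x ∈ oc P H, ∀ c : ℂ, c ≠ 0 → c • x ∈ oc P H := fun x hx c hc => nul_oc_smul hP hH hx hc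
  obtain ⟨i, j, z₀, hz₀⟩ := nul_minor hFd hFf hne
  -- the main point
  have key : ∀ (c : ℂ), c ≠ 0 → ∀ z, ((F z).ofLp i * (deriv F z).ofLp j - (F z).ofLp j * (deriv F z).ofLp i) * eval (c • (F z).ofLp) (G * Φ) = 0 := by
    intro c hc z
    by_cases hGx : eval (c • (F z).ofLp) G = 0
    · rw [map_mul, hGx, zero_mul, mul_zero]
    obtain ⟨-, htx, hsp⟩ := ht (c • (F z).ofLp) (fun Q hQ => (nul_mem_iff hFf Q).1 hQ z c) hGx
    obtain ⟨al, be, hab⟩ := hsp _ (nul_conTan hFd (fun Q hQ => (nul_mem_iff hFf Q).1 hQ) c z)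
    by_cases hbe : be = 0
    · rw [hbe, zero_smul, add_zero, smul_comm al c] at hab
      have h1 : (deriv F z).ofLp = al • (F z).ofLp := smul_right_injective _ hc hab
      have h2 : ∀ l, (deriv F z).ofLp l = al * (F z).ofLp l := fun l => by rw [h1]; rfl
      rw [h2 i, h2 j]
      ring
    · have hx : c • F z ∈ oc P H := hsm _ (hoc z) c hc
      have hT0 : Tan (oc P H) (F z) (deriv F z) := Pool.Agent.H14.V.tan_of_curve hFd hoc z
      have hT1 : Tan (oc P H) (c • F z) (c • deriv F z) := by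
        have h1 : Tan (oc P H) ((fun w => c • F w) z) (deriv (fun w => c • F w) z) :=
          Pool.Agent.H14.V.tan_of_curve (F := fun w => c • F w) (hFd.const_smul c) (fun w => hsm _ (hoc w) c hc) z
        have h2 : deriv (fun w => c • F w) z = c • deriv F z := deriv_const_smul c (hFd z)
        rw [h2] at h1
        exact h1
      set x : EN N := c • F z with hxdef
      set u : EN N := WithLp.toLp 2 fun i => eval x.ofLp (t i) with hu
      have hxo : x.ofLp = c • (F z).ofLp := rfl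
      have hab' : c • deriv F z = al • x + be • u := by
        apply (LE N).symm.injective
        exact hab
      have hu2 : u = be⁻¹ • (c • deriv F z) + (-(be⁻¹ * al)) • x := by
        rw [hab', smul_add, smul_smul be⁻¹ al x, smul_smul be⁻¹ be u, inv_mul_cancel₀ hbe, one_smul, neg_smul]
        abel
      have hTu : Tan (oc P H) x u := by
        rw [hu2]
        exact nul_tan_comb hsm hT1 _ _
      have hTb : Tan (oc P H) x (be⁻¹ • (c • deriv F z)) := by
        have := nul_tan_comb hsm hT1 be⁻¹ 0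
        rw [zero_smul, add_zero] at this
        exact this
      have hθ0 : θ.toFun x u = 0 := by
        rw [hu2, θ.add_smul x _ hTb, θ.smul x _ hT1, θ.scale _ _ hT0 c hc, hθF z, mul_zero]
      have h3 := hW x hx u hTu
      rw [hθ0, zero_mul] at h3
      have h4 : eval (c • (F z).ofLp) Φ = 0 := by
        rw [hΦ, nul_evW]
        exact h3.symm
      rw [map_mul, h4, mul_zero, mul_zero]
  have hz1 : ∀ (c : ℂ), c ≠ 0 → ∀ z, eval (c • (F z).ofLp) (G * Φ) = 0 := by
    intro c hc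
    have hm1 : Differentiable ℂ fun z => (F z).ofLp i * (deriv F z).ofLp j - (F z).ofLp j * (deriv F z).ofLp i := by
      have hdF : ∀ l, Differentiable ℂ fun z => (F z).ofLp l := fun l z => (nul_coord hFd l z).differentiableAt
      have hdd : ∀ l, Differentiable ℂ fun z => (deriv F z).ofLp l := by
        intro l
        have h1 : (fun z => (deriv F z).ofLp l) = deriv fun z => (F z).ofLp l := funext fun z => (nul_coord hFd l z).deriv.symm
        rw [h1]
        exact (hdF l).deriv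
      exact ((hdF i).mul (hdd j)).sub ((hdF j).mul (hdd i))
    have hm2 : Differentiable ℂ fun z => eval (c • (F z).ofLp) (G * Φ) := fun z => (nul_eval_deriv hFd (G * Φ) c z).differentiableAt
    rcases AnalyticOnNhd.eq_zero_or_eq_zero_of_mul_eq_zero (nul_entire hm1) (nul_entire hm2) (fun z _ => key c hc z) isPreconnected_univ with h1 | h1
    · exact absurd (h1 z₀ (Set.mem_univ _)) hz₀
    · exact fun z => h1 z (Set.mem_univ _)
  have hmem : G * Φ ∈ mapIdeal f Set.univ := by
    rw [nul_mem_iff hFf]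
    intro z c
    have hcont : Continuous fun c : ℂ => eval (c • (F z).ofLp) (G * Φ) :=
      (MvPolynomial.continuous_eval (G * Φ)).comp (continuous_id.smul continuous_const)
    have h1 : (fun c : ℂ => eval (c • (F z).ofLp) (G * Φ)) = fun _ => 0 :=
      Continuous.ext_on (dense_compl_singleton (0 : ℂ)) hcont continuous_const (fun c hc => hz1 c hc z)
    exact congrFun h1 c
  exact (hprime.mem_or_mem hmem).resolve_left hG

end Pool.Agent.SR3.NC
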